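import Mathlib

set_option autoImplicit false

namespace Pool.Agent.Results.MP_c087c9_gt.SpiralRay

/-- The surjective span: supremum, over connected `C` in `X × X` both of whose projections are all
of `X`, of the infimum of the distance on `C`. -/
noncomputable def surjSpan (X : Type) [MetricSpace X] : ENNReal :=
  ⨆ (C : Set (X × X)) (_ : IsConnected C) (_ : Prod.fst '' C = Set.univ ∧
    Prod.snd '' C = Set.univ), ⨅ p ∈ C, edist p.1 p.2

/-- The surjective semi-span: as before, with at least one projection all of `X`. -/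
noncomputable def surjSemiSpan (X : Type) [MetricSpace X] : ENNReal :=
  ⨆ (C : Set (X × X)) (_ : IsConnected C) (_ : Prod.fst '' C = Set.univ ∨
    Prod.snd '' C = Set.univ), ⨅ p ∈ C, edist p.1 p.2

/-- The spiral. -/
noncomputable def r (t : ℝ) : ℂ := ((1 + Real.exp (-t) : ℝ) : ℂ) * Complex.exp (t * Complex.I)

theorem r_cont : Continuous r := by
  unfold r
  fun_prop

theorem r_norm (t : ℝ) : ‖r t‖ = 1 + Real.exp (-t) := by
  unfold r
  rw [norm_mul, Complex.norm_exp_ofReal_mul_I, mul_one, Complex.norm_real, Real.norm_eq_abs,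
    abs_of_pos (by positivity)]

theorem r_pi (t : ℝ) : r (t + Real.pi) =
    -(((1 + Real.exp (-(t + Real.pi)) : ℝ) : ℂ) * Complex.exp (t * Complex.I)) := by
  unfold r
  have : ((t + Real.pi : ℝ) : ℂ) * Complex.I = t * Complex.I + Real.pi * Complex.I := by
    push_cast
    ring
  rw [this, Complex.exp_add, Complex.exp_pi_mul_I]
  ring

theorem r_dist (t : ℝ) : 2 ≤ dist (r t) (r (t + Real.pi)) := by
  rw [r_pi, dist_eq_norm, sub_neg_eq_add]
  unfold r
  rw [← add_mul, norm_mul, Complex.norm_exp_ofReal_mul_I, mul_one, ← Complex.ofReal_add,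
    Complex.norm_real, Real.norm_eq_abs, abs_of_pos (by positivity)]
  have h1 := Real.exp_pos (-t)
  have h2 := Real.exp_pos (-(t + Real.pi))
  linarith

/-- A bounded connected subset `X` of the plane whose surjective semi-span exceeds twice its
surjective span. -/
theorem result : ∃ X : Set ℂ, Bornology.IsBounded X ∧ IsConnected X ∧
    2 * surjSpan X < surjSemiSpan X := by
  refine ⟨r '' Set.Ici 0, ?_, ?_, ?_⟩
  · refine (Metric.isBounded_closedBall (x := (0 : ℂ)) (r := 2)).subset ?_
    rintro _ ⟨t, ht, rfl⟩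
    rw [mem_closedBall_zero_iff, r_norm]
    have : Real.exp (-t) ≤ 1 := by
      rw [Real.exp_le_one_iff]
      have : (0 : ℝ) ≤ t := ht
      linarith
    linarith
  · exact isConnected_Ici.image _ r_cont.continuousOn
  · have h0 : surjSpan (r '' Set.Ici (0 : ℝ)) = 0 := by
      unfold surjSpan
      refine le_antisymm ?_ bot_le
      refine iSup_le fun C => iSup_le fun hC => iSup_le fun ⟨h1, h2⟩ => ?_
      let z0 : (r '' Set.Ici (0 : ℝ) : Set ℂ) := ⟨r 0, 0, Set.mem_Ici.mpr le_rfl, rfl⟩
      have hmax : ∀ z : (r '' Set.Ici (0 : ℝ) : Set ℂ), ‖(z : ℂ)‖ ≤ ‖(z0 : ℂ)‖ := by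
        rintro ⟨_, t, ht, rfl⟩
        show ‖r t‖ ≤ ‖r 0‖
        rw [r_norm, r_norm]
        have ht' : (0 : ℝ) ≤ t := ht
        have : Real.exp (-t) ≤ Real.exp (-0) := Real.exp_le_exp.mpr (by linarith)
        linarith
      obtain ⟨p, hp, hp0⟩ : z0 ∈ Prod.fst '' C := by rw [h1]; trivial
      obtain ⟨q, hq, hq0⟩ : z0 ∈ Prod.snd '' C := by rw [h2]; trivial
      let f : (r '' Set.Ici (0 : ℝ) : Set ℂ) × (r '' Set.Ici (0 : ℝ) : Set ℂ) → ℝ :=
        fun x => ‖(x.2 : ℂ)‖ - ‖(x.1 : ℂ)‖
      have hf : ContinuousOn f C := by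
        apply Continuous.continuousOn
        simp only [f]
        fun_prop
      have hfp : f p ≤ 0 := by
        simp only [f]
        rw [hp0]
        linarith [hmax p.2]
      have hfq : 0 ≤ f q := by
        simp only [f]
        rw [hq0]
        linarith [hmax q.1]
      obtain ⟨x, hx, hx0⟩ := hC.isPreconnected.intermediate_value hp hq hf ⟨hfp, hfq⟩
      have heq : x.1 = x.2 := by
        obtain ⟨⟨_, t, ht, rfl⟩, ⟨_, s, hs, rfl⟩⟩ := x
        have h3 : ‖r s‖ - ‖r t‖ = 0 := hx0
        rw [r_norm, r_norm] at h3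
        have h4 : Real.exp (-s) = Real.exp (-t) := by linarith
        have h5 : s = t := by
          have := Real.exp_injective h4
          linarith
        subst h5
        rfl
      refine (iInf₂_le x hx).trans ?_
      rw [heq, edist_self]
    have h2 : 2 ≤ surjSemiSpan (r '' Set.Ici (0 : ℝ)) := by
      unfold surjSemiSpan
      let g : Set.Ici (0 : ℝ) →
          (r '' Set.Ici (0 : ℝ) : Set ℂ) × (r '' Set.Ici (0 : ℝ) : Set ℂ) :=
        fun t => (⟨r t, t, t.2, rfl⟩, ⟨r (t + Real.pi), (t : ℝ) + Real.pi,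
          Set.mem_Ici.mpr (add_nonneg t.2 Real.pi_pos.le), rfl⟩)
      have hg : Continuous g := by
        refine Continuous.prodMk ?_ ?_
        · exact Continuous.subtype_mk (r_cont.comp continuous_subtype_val) _
        · exact Continuous.subtype_mk
            (r_cont.comp (continuous_subtype_val.add continuous_const)) _
      have hconn : IsConnected (Set.range g) := by
        haveI : ConnectedSpace (Set.Ici (0 : ℝ)) :=
          isConnected_iff_connectedSpace.mp isConnected_Ici
        exact isConnected_range hg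
      have hfst : Prod.fst '' Set.range g = Set.univ := by
        ext ⟨_, t, ht, rfl⟩
        simp only [Set.mem_univ, iff_true]
        exact ⟨g ⟨t, ht⟩, ⟨⟨t, ht⟩, rfl⟩, rfl⟩
      refine le_iSup_of_le (Set.range g) (le_iSup_of_le hconn (le_iSup_of_le (Or.inl hfst) ?_))
      refine le_iInf₂ ?_
      rintro _ ⟨t, rfl⟩
      have h3 : edist (g t).1 (g t).2 = edist (r t) (r ((t : ℝ) + Real.pi)) := rfl
      rw [h3, edist_dist]
      have h4 := r_dist t
      have h5 : (2 : ENNReal) = ENNReal.ofReal 2 := by simp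
      rw [h5]
      exact ENNReal.ofReal_le_ofReal h4
    rw [h0, mul_zero]
    exact lt_of_lt_of_le (by norm_num) h2

end Pool.Agent.Results.MP_c087c9_gt.SpiralRay
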